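import Pool.Agent.Y199.SG.ZPI

/-!
# MP_7e5527_ag: all but finitely many members of families in `Y(1)^n` over an elliptic curve miss the
orbits `Σ(M, X_M, x)`

The Shimura variety `Y(1)^n` is identified with `ℂ^n` by the elliptic modular function
`jj = j = E₄³ / Δ`.

**The orbits.** Let `(M, X_M)` be a Shimura datum and let `x` be a Hodge generic point of `X_M`. For
`Γ\X⁺ = Y(1)^n` the set `Σ = Σ(M, X_M, x)` of the problem consists of points all of whose coordinates
are CM values or isogenous to one of finitely many numbers `j(τ_1), …, j(τ_s)`, one for every factor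
of `M^ad` isomorphic to `PGL_2`: a coordinate of a point `x'` of `Σ` which is not a CM value gives a
surjection `M^ad → M^ad_{x'} → PGL_2` which maps `x^ad` to this coordinate, and two isomorphisms of
a simple factor of `M^ad` with `PGL_2` differ by an element of `PGL_2(ℚ)`. Let `J` be the set of these
numbers. `InOrbit J z` says that `z` is a CM value or isogenous to an element of `J`. So `Σ` is
contained in the set of the points with `InOrbit J (x_i)` for all `i` (and this includes the
generalised Hecke orbit of every point with coordinates in `J`).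

**The base.** Let `a, b` be algebraic numbers with `4 a³ + 27 b² ≠ 0` and let `Curve a b` be the set of
the affine points `P = (x, y)` of the elliptic curve `y² = x³ + a x + b`. At a point `Q` of it the
function `loc Q`, which is `x - x(Q)` if `y(Q) ≠ 0` and `y` if `y(Q) = 0`, is a local parameter, and a
function `c ∈ ℂ[x, y]` has the order `e` at `Q` if `c = loc^e g / h` on the curve with polynomials
`g, h` in `x, y` which do not vanish at `Q` and whose coefficients are algebraic over a given
countable field `K ⊂ ℂ` (`HasOrder`).

**Families.** We consider families of subsets `X_P` of `Y(1)^n` over the elliptic curve, given by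
* a family `B_t ⊆ P^N` of projective algebraic sets, defined by forms `G k` with coefficients in
  `K[t]`, quotients `f_i = A_i / B_i` of forms of the same degree `d_i` with coefficients in `K[t]`,
  and a rational function `t = φ(P) = u(P) / v(P)` on the elliptic curve (so `B_t` can be a
  fixed variety, or the pullback by `φ` of any one-parameter family),
* functions `s_i` integral over `K[j]`, `R_i (s_i, j) = 0` with `R_i` monic in the first variable
  (level one: `R_i = S - J`, `s_i = j`; in general modular functions of any level without poles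
  in the upper half plane), and functions `c_i ∈ ℂ[x, y]` on the elliptic curve:
`X_P = {x | ∃ y ∈ B_t, ∃ s, ∀ i, R_i (s_i, x_i) = 0, c_i (P) s_i = A_i (y) / B_i (y), t = φ(P)}`
(`member`), the image of a family of subvarieties of a product of modular curves of any levels. For
example: the translates `(c_1(P)⁻¹ y_1, …, c_n(P)⁻¹ y_n)`, `y ∈ V`, of a fixed affine variety `V`.

The family degenerates at one point `Q` of the elliptic curve with algebraic coordinates, `v(Q) ≠ 0`:
no point of `B_t` lies on `m + 1` of the divisors of the `f_i`, for `t = φ(Q)`, and the `c_i` vanish at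
`Q` (the orders are arbitrary).

**Theorem.** For every number field `E` and for all but finitely many of the points `P` of the
elliptic curve over `E`, every point of `X_P` has at most `m` coordinates which are CM values, or
isogenous to an element of `J`, or integral over the ring `ℤ[J]`; here `J` is any finite set of
numbers algebraic over `K` (the field `K` can be enlarged). So if `m < n`, then
`Σ(M, X_M, x) ∩ X_P = ∅` for all but finitely many `P`, and the assertion of the problem holds for
`(M, X_M, x)` and for all subvarieties `V ⊆ X_P` of these members (with `k = 0`).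

The results on atypical intersections in such families (`MP_130685_nt.FamiliesOverEllipticCurves`
and others) need `n (n - 1) / 2 + 1` degenerate members with independent orders; for the orbits
one degenerate member is sufficient.

The proof: all but finitely many points `P` over `E` are near to `Q` at some place with a large
residue characteristic, since otherwise `P - Q` is an integral point of the elliptic curve over
a fixed ring of `S`-integers, and there are finitely many such points by Siegel's theorem (proved
for all number fields in the file `Y199/SG/Siegel`). At such a place all but at most `m` of the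
coordinates of a point of `X_P` have poles.
-/

set_option autoImplicit false

namespace Pool.Agent.Results.MP_7e5527_ag.FamiliesOverEllipticCurves

open MvPolynomial UpperHalfPlane H294ZP Pool.Agent.Y199.SG.ZPZ
open Pool.Agent.Y199.SG.ZPY (evalAt OnB InGeneralPosition valueAt)

/-- `z` is a CM value, or isogenous to an element of `J`: `z = j(w')` and `w' = g w`, where `j(w)` is in
`J` and `g` is an integral matrix of positive determinant. -/
def InOrbit (J : Set ℂ) (z : ℂ) : Prop :=
  (∃ τ : ℍ, IsCM τ ∧ z = jj τ) ∨
  ∃ w w' : ℍ, jj w ∈ J ∧ z = jj w' ∧ ∃ g : Matrix (Fin 2) (Fin 2) ℤ, 0 < g.det ∧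
    (w' : ℂ) * (g 1 0 * w + g 1 1) = g 0 0 * w + g 0 1

/-- The elements of the orbits are integral. -/
theorem integral_of_inOrbit {J : Set ℂ} {z : ℂ} (h : InOrbit J z) :
    IsIntegral (Algebra.adjoin ℤ J) z := by
  rcases h with ⟨τ, hτ, rfl⟩ | ⟨w, w', hw, rfl, g, hg, h⟩
  · exact (singular_modulus_integral τ hτ).tower_top
  · have h1 := isIntegral_isogenous w w' g hg h
    have hle : Algebra.adjoin ℤ ({jj w} : Set ℂ) ≤ Algebra.adjoin ℤ J :=
      Algebra.adjoin_mono (Set.singleton_subset_iff.2 hw)
    obtain ⟨p, hp, hp0⟩ := h1
    refine ⟨p.map (Subalgebra.inclusion hle).toRingHom, hp.map _, ?_⟩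
    rw [Polynomial.eval₂_map]
    exact hp0

/-- **All but finitely many members over the points over a number field miss the orbits.** -/
theorem result (K : Subfield ℂ) [Countable K] (κ : Type) [Finite κ] (N n m T : ℕ)
    (G : κ → MvPolynomial (Fin (N + 1)) (Polynomial K)) (hG : ∀ k, ∃ e, (G k).IsHomogeneous e)
    (A B : Fin n → MvPolynomial (Fin (N + 1)) (Polynomial K)) (δ : Fin n → ℕ)
    (hA : ∀ i, (A i).IsHomogeneous (δ i)) (hB : ∀ i, (B i).IsHomogeneous (δ i))
    (R : Fin n → Polynomial (Polynomial K)) (hR : ∀ i, (R i).Monic)
    (hT : ∀ i u w, ((R i).coeff u).coeff w ≠ 0 → u ≤ T ∧ w ≤ T)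
    (a b : ℂ) (ha : IsAlgebraic ℚ a) (hb : IsAlgebraic ℚ b) (hab : 4 * a ^ 3 + 27 * b ^ 2 ≠ 0)
    (u v : MvPolynomial (Fin 2) ℂ) (hu : ∀ d, IsAlgebraic K (u.coeff d))
    (hv : ∀ d, IsAlgebraic K (v.coeff d))
    (Q : Fin 2 → ℂ) (hQ : Q ∈ Curve a b) (hQa : ∀ i, IsAlgebraic ℚ (Q i)) (hvQ : eval Q v ≠ 0)
    (c : Fin n → MvPolynomial (Fin 2) ℂ) (e : Fin n → ℕ)
    (he : ∀ i, HasOrder K a b Q (c i) (e i)) (hepos : ∀ i, 0 < e i)
    (hpos : InGeneralPosition (value u v Q) m G A B)
    (J : Finset ℂ) (hJ : ∀ γ ∈ J, IsAlgebraic K γ) (E : IntermediateField ℚ ℂ)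
    [FiniteDimensional ℚ E] :
    {P : Fin 2 → ℂ | P ∈ Curve a b ∧ (∀ i, P i ∈ E) ∧
      ¬ ∀ x ∈ member (value u v P) (fun i => eval P (c i)) G A B R, ∀ I : Finset (Fin n),
        (∀ i ∈ I, InOrbit (J : Set ℂ) (x i) ∨ IsIntegral (Algebra.adjoin ℤ (J : Set ℂ)) (x i)) →
          I.card ≤ m}.Finite := by
  obtain ⟨W, hW⟩ := coreInt K κ N n m 1 T G hG A B δ hA hB R hR hT a b
    ha.isIntegral.tower_top.isAlgebraic u v hu hv hb.isIntegral.tower_top.isAlgebraic
    (fun _ => Q) (fun _ => hQ) (fun _ i => (hQa i).isIntegral.tower_top.isAlgebraic)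
    (fun _ => hvQ) c (fun _ => e) (fun _ => he) (fun _ => hepos) (fun _ => hpos) J hJ
  refine (near_all (M := 1) a b ha hb hab (fun _ => Q) (fun _ => hQ) (fun _ => hQa) W E).subset ?_
  rintro P ⟨hP, hPE, hbad⟩
  refine ⟨hP, hPE, fun hnear => hbad fun x hx I hI => ?_⟩
  refine hW P hP (fun i => alg_of_mem K E _ (hPE i)) ⟨0, hnear 0⟩ x hx I fun i hi => ?_
  rcases hI i hi with h | h
  · exact integral_of_inOrbit h
  · exact h

end Pool.Agent.Results.MP_7e5527_ag.FamiliesOverEllipticCurves
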