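import Pool.Agent.Y199.SG.ZPM

/-!
# MP_7e5527_ag: almost all rational members of families in `Y(1)^n` with one degenerate member miss the
orbits `Σ(M, X_M, x)`

The Shimura variety `Y(1)^n` is identified with `ℂ^n` by the elliptic modular function
`jj = j = E₄³ / Δ`.

**The orbits.** Let `(M, X_M)` be a Shimura datum and let `x` be a Hodge generic point of `X_M`. For
`Γ\X⁺ = Y(1)^n` the set `Σ = Σ(M, X_M, x)` of the problem consists of points all of whose coordinates
are CM values or isogenous to one of finitely many numbers `j(τ_1), …, j(τ_s)`, one for every factor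
of `M^ad` isomorphic to `PGL_2`: a coordinate of a point `x'` of `Σ` which is not a CM value gives a
surjection `M^ad → M^ad_{x'} → PGL_2` which maps `x^ad` to this coordinate, and two isomorphisms of
a simple factor of `M^ad` with `PGL_2` differ by an element of `PGL_2(ℚ)`. Let `J` be the set of these
numbers. `InOrbit J z` says that `z` is a CM value or isogenous to an element of `J`. So `Σ` is
contained in the set of the points with `InOrbit J (x_i)` for all `i` (and this includes the
generalised Hecke orbit of every point with coordinates in `J`).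

**Families.** We consider families of subsets `X_t` of `Y(1)^n` over the line, given by
* a family `B_t ⊆ P^N` of projective algebraic sets, defined by forms `G k` with coefficients in
  `K[t]`, for a countable field `K ⊂ ℂ`, and quotients `f_i = A_i / B_i` of forms of the same degree
  `δ_i` with coefficients in `K[t]`,
* functions `s_i` integral over `K[j]`, `R_i (s_i, j) = 0` with `R_i` monic in the first variable
  (level one: `R_i = S - J`, `s_i = j`; in general modular functions of any level without poles
  in the upper half plane), and polynomials `c_i ∈ K[t]`: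
`X_t = {x | ∃ y ∈ B_t, ∃ s, ∀ i, R_i (s_i, x_i) = 0, c_i (t) s_i = A_i (y) / B_i (y)}`
(`scaledImage`), the image of a family of subvarieties of a product of modular curves of any
levels. For example: the translates `(c_1(t)⁻¹ y_1, …, c_n(t)⁻¹ y_n)`, `y ∈ V`, of a fixed affine
variety `V`.

The family degenerates at one algebraic number `α`: no point of `B_α` lies on `m + 1` of the divisors of
the `f_i`, and the `c_i` vanish at `α` (the orders are arbitrary; the other members can be
arbitrary).

**Theorem.** Let `J` be a finite set of numbers algebraic over `K` (the field `K` can be enlarged, so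
these are arbitrary numbers). There are `C` and `s` such that for all `H ≥ 2` and `v ≤ H`, for all
but at most `C (log H)^s` of the rational numbers `t` with denominator `v` and numerator of absolute
value at most `H`, every point of `X_t` has at most `m` coordinates which are CM values, or
isogenous to an element of `J`, or integral over the ring `ℤ[J]`. So if `m < n`, then
`Σ(M, X_M, x) ∩ X_t = ∅` for all these `t` (for `v = 1`: for all integers `t` with `|t| ≤ H` but at
most `C (log H)^s`), and the assertion of the problem holds for `(M, X_M, x)` and for all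
subvarieties `V ⊆ X_t` of these members (with `k = 0`).

`FamiliesOverTheLine` has finitely many exceptions in finitely generated fields and rings, but needs
three and two degenerate values; with one value the exceptional set can be infinite for the method
(the `t` with `t - α` a unit), and only its growth is bounded.
-/

set_option autoImplicit false

namespace Pool.Agent.Results.MP_7e5527_ag.OneDegenerateValue

open MvPolynomial UpperHalfPlane H294ZP
open Pool.Agent.Y199.SG.ZPY (InGeneralPosition scaledImage order lineCore)
open Pool.Agent.Y199.ZF (few_far ringOf mem_ringOf val_ringOf)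
open Pool.Agent.Y199.SG.ZPZ (isIntegral_isogenous)
open Pool.Agent.Y199.SG

/-- `z` is a CM value, or isogenous to an element of `J`: `z = j(w')` and `w' = g w`, where `j(w)` is in
`J` and `g` is an integral matrix of positive determinant. -/
def InOrbit (J : Set ℂ) (z : ℂ) : Prop :=
  (∃ τ : ℍ, IsCM τ ∧ z = jj τ) ∨
  ∃ w w' : ℍ, jj w ∈ J ∧ z = jj w' ∧ ∃ g : Matrix (Fin 2) (Fin 2) ℤ, 0 < g.det ∧
    (w' : ℂ) * (g 1 0 * w + g 1 1) = g 0 0 * w + g 0 1

/-- The elements of the orbits are integral. -/
theorem integral_of_inOrbit {J : Set ℂ} {z : ℂ} (h : InOrbit J z) :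
    IsIntegral (Algebra.adjoin ℤ J) z := by
  rcases h with ⟨τ, hτ, rfl⟩ | ⟨w, w', hw, rfl, g, hg, h⟩
  · exact (singular_modulus_integral τ hτ).tower_top
  · have h1 := isIntegral_isogenous w w' g hg h
    have hle : Algebra.adjoin ℤ ({jj w} : Set ℂ) ≤ Algebra.adjoin ℤ J :=
      Algebra.adjoin_mono (Set.singleton_subset_iff.2 hw)
    obtain ⟨p, hp, hp0⟩ := h1
    refine ⟨p.map (Subalgebra.inclusion hle).toRingHom, hp.map _, ?_⟩
    rw [Polynomial.eval₂_map]
    exact hp0

/-- `X` has few points with integral coordinates or coordinates in the orbits: at most `m`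
coordinates of every point of `X` are CM values, isogenous to an element of `J`, or integral
over `ℤ[J]`. -/
def Few (J : Set ℂ) (m : ℕ) {n : ℕ} (X : Set (Fin n → ℂ)) : Prop :=
  ∀ x ∈ X, ∀ I : Finset (Fin n),
    (∀ i ∈ I, InOrbit J (x i) ∨ IsIntegral (Algebra.adjoin ℤ J) (x i)) → I.card ≤ m

/-- **Almost all members with rational parameter miss the orbits**, if one member is degenerate. -/
theorem result (K : Subfield ℂ) [Countable K] (κ : Type) [Finite κ] (N n m T : ℕ)
    (G : κ → MvPolynomial (Fin (N + 1)) (Polynomial K)) (hG : ∀ k, ∃ e, (G k).IsHomogeneous e)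
    (A B : Fin n → MvPolynomial (Fin (N + 1)) (Polynomial K)) (δ : Fin n → ℕ)
    (hA : ∀ i, (A i).IsHomogeneous (δ i)) (hB : ∀ i, (B i).IsHomogeneous (δ i))
    (R : Fin n → Polynomial (Polynomial K)) (hR : ∀ i, (R i).Monic)
    (hT : ∀ i u w, ((R i).coeff u).coeff w ≠ 0 → u ≤ T ∧ w ≤ T)
    (c : Fin n → Polynomial K) (α : ℂ) (hα : IsAlgebraic ℚ α)
    (hord : ∀ i, 0 < order (c i) α) (hpos : InGeneralPosition α m G A B)
    (J : Finset ℂ) (hJ : ∀ γ ∈ J, IsAlgebraic K γ) :
    ∃ C s : ℕ, ∀ H v : ℕ, 2 ≤ H → v ≤ H → ∀ E : Finset ℚ,
      (∀ t ∈ E, t.den = v ∧ |t.num| ≤ H ∧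
        ¬ Few (J : Set ℂ) m (scaledImage (t : ℂ) G A B R c)) →
      (E.card : ℝ) ≤ C * Real.log H ^ s := by
  obtain ⟨W, hW⟩ := lineCore K κ N n m T G hG A B δ hA hB R hR hT c {α}
    (fun z hz => by
      rw [Finset.mem_singleton.1 hz]
      exact hα.isIntegral.tower_top.isAlgebraic)
    (fun z hz => by
      rw [Finset.mem_singleton.1 hz]
      exact hord)
    (fun z hz => by
      rw [Finset.mem_singleton.1 hz]
      exact hpos) J hJ
  refine (few_far W α hα).mono fun t ht => ?_
  by_contra hcon
  obtain ⟨p, hp, τ, hτ, -, hτα⟩ := hcon
  refine ht fun x hx I hI => hW (t : ℂ) (isAlgebraic_ratCast K t) ⟨α, Finset.mem_singleton_self _,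
    ringOf τ, fun z hz => (mem_ringOf τ).2 (hτ z hz), val_ringOf τ ?_⟩ x hx I fun i hi => ?_
  · rw [map_sub, norm_sub_rev]
    exact hτα
  · rcases hI i hi with h4 | h4
    · exact integral_of_inOrbit h4
    · exact h4

end Pool.Agent.Results.MP_7e5527_ag.OneDegenerateValue
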