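import Pool.Agent.Y890.VH.Sigma

/-!
Points of bounded height of variations of Hodge structure with small morphisms from an arbitrary fixed Hodge structure
are sparse; generalised Hecke orbits.
-/

namespace Pool.Agent.Results.MP_7e5527_ag.RelativeTensors

open Filter Pool.Agent Pool.Agent.Y890.MV Pool.Agent.Y890.VH

/-- Let `U` be a nonempty connected open subset of `ℂ ^ X`, and `F_j`, `j` in a finite set `J`, matrices of analytic
functions on `U` with rows indexed by `H` and `r j` columns (`f ⟨j, (m, c)⟩` is the entry `(m, c)` of `F_j`; e.g. bases of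
the pieces of the Hodge filtration in a flat basis). Assume that the elements of the field generated by `x` and the
entries which are algebraic over `ℂ(x)` are in `ℂ(x)` (`RegularM`), and let `Γ` be a subgroup of `GL_H(ℂ)` such that all
polynomial relations over `ℂ[x]` between the entries of the `F_j` on `U` are relations between the entries of the
matrices `γ F_j`, for all `γ ∈ Γ` (`MonInv`; e.g. the monodromy group).
There is `ω → ∞` such that for all large `T` and all number fields `K` of degree at most `ω = ω T`, embedded in `ℂ`, the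
following sets of points `s` of `U` with coordinates in `K` of height at most `T`, of norm at most `ω` and at distance at
least `1 / ω` from the complement of `U`, lie on at most `T ^ (1 / ω)` hypersurfaces of degree at most `T ^ (1 / ω)`, and
have at most `T ^ (1 / ω) * N ^ (|X| - 1)` elements, `N` being the number of elements of `K` of height at most `T`
(`Few`). In all of them, a small matrix is a matrix with entries in the integers of `K`, all conjugates of which are of
absolute value at most `T ^ ω`.
1. For all complex numbers `v p i` (`i, p < ω`): the points `s` with small matrices `t 0, .., t (ω - 1)`, linear maps from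
the `b`-th to the `a`-th tensor power of `ℂ ^ H` with `a, b ≤ ω`, for which for some `S` all `v p 0 * t 0 + v p 1 * t 1 + ..`
map `F_(j 0)(s) ⊗ .. ⊗ F_(j (b - 1))(s)` to the sum of the `F_(i 0)(s) ⊗ .. ⊗ F_(i (a - 1))(s)` for `i ∈ S p j`, for all
`j` (column spaces), but for some `γ ∈ Γ` not all of them have the same property for the `γ F_j(s)` (`ExcRel`). (The `v p i`
are e.g. coordinates of elements of the pieces of the Hodge filtration of a fixed rational Hodge structure, and the `t i`
the images of a rational basis under a morphism.)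
2. For all tuples of matrices `F'_j`, `j ∈ J`, with at most `ω` rows, and at most `ω` columns in total: the points `s`
with a small matrix `M` with `M F'_j = F_j(s)` for all `j` (column spaces), unless `Γ` fixes all `F_j(s)`
(`HeckePts`).
3. For all `v p i` and all `j0 ∈ J` such that for all `x ∈ U` the only `Γ`-stable subspace of `ℂ ^ H` containing
`F_j0(x)` is `ℂ ^ H` (`Gens`): the points `s` with small `t 0, .., t (ω - 1)` in `M_H(K)` such that the
`v p 0 * t 0 + v p 1 * t 1 + ..` kill `F_j0(s)` and map `F_j(s)` to the sum of the `F_j'(s)`, `j' ∈ S p j`, for all `j` and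
some `S`, but are not all `0` (`SigmaPts`). (E.g. if the `v p i` are coordinates of a basis of `F ^ 1` of a fixed
rational Hodge structure of weight `0`, these are points with a morphism to the endomorphisms not killing `F ^ 1`.) -/
theorem result {X H J : Type} [Fintype X] [DecidableEq X] [Nonempty X] [Fintype H] [DecidableEq H] [Fintype J]
    [DecidableEq J] {r : J → ℕ} {U : Set (X → ℂ)} {f : Sg H J r → (X → ℂ) → ℂ}
    (hU : IsPreconnected U) (hUo : IsOpen U) (hne : U.Nonempty) (hf : ∀ i, AnalyticOnNhd ℂ (f i) U)
    (hreg : RegularM U f) (Γ : Subgroup (GL H ℂ)) (hΓ : ∀ γ ∈ Γ, MonInv U f (γ : Matrix H H ℂ)) :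
    ∃ (ω : ℝ → ℕ) (T₀ : ℝ), Tendsto ω atTop atTop ∧ Monotone ω ∧ ∀ T, T₀ ≤ T → 0 < ω T ∧
      ∀ (K : Type) [Field K] [NumberField K], Module.finrank ℚ K ≤ ω T → ∀ io : K →+* ℂ,
        (∀ v : ℕ → ℕ → ℂ, Few io T (ω T) (ExcRel f (InnerM U (ω T)) K io Γ v (ω T) T)) ∧
        (∀ (H' : Type) [Fintype H'] [DecidableEq H'] (r' : J → ℕ) (y' : Sg H' J r' → ℂ),
          Fintype.card H' ≤ ω T → Fintype.card (Σ j, Fin (r' j)) ≤ ω T →
          Few io T (ω T) (HeckePts f (InnerM U (ω T)) K io Γ y' (ω T) T)) ∧
        (∀ (j0 : J), (∀ x ∈ U, Gens Γ (Fil (fun y => f y x) j0)) → ∀ v : ℕ → ℕ → ℂ,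
          Few io T (ω T) (SigmaPts f (InnerM U (ω T)) K io j0 v (ω T) T)) := by
  obtain ⟨ω, T₀, h1, h2, h3⟩ := mainR hU hUo hne hf hreg Γ hΓ
  refine ⟨ω, max T₀ 1, h1, h2, fun T hT => ?_⟩
  have hT0 : T₀ ≤ T := (le_max_left _ _).trans hT
  have hT1 : 1 ≤ T := (le_max_right _ _).trans hT
  have hω := (h3 T hT0).1
  refine ⟨hω, fun K _ _ hK io => ⟨fun v => (h3 T hT0).2 K hK io v, ?_, ?_⟩⟩
  · intro H' _ _ r' y' hc1 hc2
    obtain ⟨v, hv⟩ := hecke_sub f Γ y' (ω T) hω hc1 hc2
    exact Few.mono ((h3 T hT0).2 K hK io v) (hv _ K io T hT1)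
  · intro j0 hgen v
    exact Few.mono ((h3 T hT0).2 K hK io v) (sigma_sub f Γ j0 hgen (ω T) hω (innerM_sub _ hω) K io v T)

end Pool.Agent.Results.MP_7e5527_ag.RelativeTensors
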